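import Pool.Agent.J4H59.PH.Jobs

/-!
# Derivations with values in the functions on the cosets of a free subgroup (job FREE of helper59)
-/

set_option autoImplicit false
set_option linter.unusedSectionVars false

open scoped Classical Matrix

namespace Pool.Agent.J4H73.PH

open Pool.Agent.Helper386.PD3 Pool.Agent.J4H59.PD Pool.Agent.J4H59.PE Pool.Agent.J4H59.PH

noncomputable section

variable {G : Type} [Group G]

/-- affine maps of the group ring -/
def aff (g : G) (v : RR G) : Equiv.Perm (RR G) where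
  toFun x := gof g * x + v
  invFun x := gof g⁻¹ * (x - v)
  left_inv x := by
    change gof g⁻¹ * (gof g * x + v - v) = x
    rw [add_sub_cancel_right, ← mul_assoc, ← gof_mul, inv_mul_cancel, gof_one, one_mul]
  right_inv x := by
    change gof g * (gof g⁻¹ * (x - v)) + v = x
    rw [← mul_assoc, ← gof_mul, mul_inv_cancel, gof_one, one_mul, sub_add_cancel]

theorem aff_apply (g : G) (v x : RR G) : aff g v x = gof g * x + v := rfl

/-- induction over a basis -/
theorem basis_ind {F : Type} [Group F] {κ : Type} (b : FreeGroupBasis κ F) (H : Subgroup F)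
    (h : ∀ i, b i ∈ H) (a : F) : a ∈ H := by
  let s : F →* H := b.lift (fun i => ⟨b i, h i⟩)
  have hs : H.subtype.comp s = MonoidHom.id F := by
    refine b.ext_hom _ _ fun i => ?_
    change ((b.lift (fun i => (⟨b i, h i⟩ : H)) (b i) : H) : F) = b i
    rw [FreeGroupBasis.lift_apply_apply, FreeGroupBasis.repr_apply_coe, FreeGroup.lift_apply_of]
  have h1 := DFunLike.congr_fun hs a
  have h2 : ((s a : H) : F) = a := h1
  rw [← h2]
  exact (s a).2

variable {N : Subgroup G} {κ : Type} (b : FreeGroupBasis κ N)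

/-- the affine action of the free group -/
def fox (k : κ) : N →* Equiv.Perm (RR G) :=
  b.lift (fun i => aff ((b i : N) : G) (if i = k then 1 else 0))

theorem fox_basis (k i : κ) : fox b k (b i) = aff ((b i : N) : G) (if i = k then 1 else 0) := by
  unfold fox
  rw [FreeGroupBasis.lift_apply_apply, FreeGroupBasis.repr_apply_coe, FreeGroup.lift_apply_of]

theorem fox_apply (k : κ) (a : N) : ∀ x, fox b k a x = gof (a : G) * x + fox b k a 0 := by
  refine basis_ind b
    { carrier := {a | ∀ x, fox b k a x = gof (a : G) * x + fox b k a 0}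
      one_mem' := ?_
      mul_mem' := ?_
      inv_mem' := ?_ } ?_ a
  · intro a c ha hc x
    have ha : ∀ x, fox b k a x = gof (a : G) * x + fox b k a 0 := ha
    have hc : ∀ x, fox b k c x = gof (c : G) * x + fox b k c 0 := hc
    rw [map_mul, Equiv.Perm.mul_apply, Equiv.Perm.mul_apply, hc x, ha, ha (fox b k c 0),
      Subgroup.coe_mul, gof_mul, mul_add, mul_assoc, add_assoc]
  · intro x
    rw [map_one, Equiv.Perm.one_apply, Equiv.Perm.one_apply, Subgroup.coe_one, gof_one, one_mul,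
      add_zero]
  · intro a ha x
    have ha : ∀ x, fox b k a x = gof (a : G) * x + fox b k a 0 := ha
    have h1 : ∀ x, fox b k a⁻¹ x = gof (a : G)⁻¹ * (x - fox b k a 0) := by
      intro x
      rw [map_inv, Equiv.Perm.inv_eq_iff_eq, ha, ← mul_assoc, ← gof_mul, mul_inv_cancel, gof_one,
        one_mul, sub_add_cancel]
    rw [h1, h1 0, Subgroup.coe_inv, zero_sub, mul_sub, mul_neg, sub_eq_add_neg]
  · intro i x
    rw [fox_basis, aff_apply, aff_apply, mul_zero, zero_add]

/-- the Fox derivative -/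
def D (k : κ) (a : N) : RR G := fox b k a 0

theorem D_mul (k : κ) (a c : N) : D b k (a * c) = D b k a + gof (a : G) * D b k c := by
  unfold D
  rw [map_mul, Equiv.Perm.mul_apply, fox_apply, add_comm]

theorem D_basis (k i : κ) : D b k (b i) = if i = k then 1 else 0 := by
  unfold D
  rw [fox_basis, aff_apply, mul_zero, zero_add]

theorem rp_mem (h : G) : (rp (h : G ⧸ N))⁻¹ * h ∈ N := by
  rw [← QuotientGroup.eq, mk_rp]

/-- the Fox derivative of the group ring -/
def FD (k : κ) : RR G →+ RR G :=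
  addR (fun h : G => gof (rp (h : G ⧸ N)) * D b k ⟨(rp (h : G ⧸ N))⁻¹ * h, rp_mem h⟩)

theorem FD_gof (k : κ) (h : G) : FD b k (gof h) =
    gof (rp (h : G ⧸ N)) * D b k ⟨(rp (h : G ⧸ N))⁻¹ * h, rp_mem h⟩ := addR_of _ _

theorem FD_aux (k : κ) (h y : G) (hy : (h : G ⧸ N) = (y : G ⧸ N)) (hm : (rp (y : G ⧸ N))⁻¹ * h ∈ N) :
    FD b k (gof h) = gof (rp (y : G ⧸ N)) * D b k ⟨(rp (y : G ⧸ N))⁻¹ * h, hm⟩ := by
  rw [FD_gof]
  have h1 : (⟨(rp (h : G ⧸ N))⁻¹ * h, rp_mem h⟩ : N) = ⟨(rp (y : G ⧸ N))⁻¹ * h, hm⟩ :=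
    Subtype.ext (by
      change (rp (h : G ⧸ N))⁻¹ * h = (rp (y : G ⧸ N))⁻¹ * h
      rw [hy])
  rw [h1, hy]

theorem FD_mul (k i : κ) (s : RR G) :
    FD b k (s * (gof ((b i : N) : G) - 1)) = if i = k then s else 0 := by
  induction s using rr_ind with
  | h1 h =>
    rw [mul_sub, mul_one, ← gof_mul, map_sub]
    have h0 : ((h * ((b i : N) : G) : G) : G ⧸ N) = (h : G ⧸ N) := by
      rw [eq_comm, QuotientGroup.eq, inv_mul_cancel_left]
      exact (b i).2
    have h1 : (rp (h : G ⧸ N))⁻¹ * (h * ((b i : N) : G)) ∈ N := by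
      rw [← mul_assoc]
      exact N.mul_mem (rp_mem h) (b i).2
    rw [FD_aux b k (h * ((b i : N) : G)) h h0 h1, FD_gof]
    have h2 : (⟨(rp (h : G ⧸ N))⁻¹ * (h * ((b i : N) : G)), h1⟩ : N) =
        ⟨(rp (h : G ⧸ N))⁻¹ * h, rp_mem h⟩ * b i := by
      apply Subtype.ext
      change (rp (h : G ⧸ N))⁻¹ * (h * ((b i : N) : G)) = (rp (h : G ⧸ N))⁻¹ * h * ((b i : N) : G)
      rw [mul_assoc]
    rw [h2, D_mul, mul_add, add_sub_cancel_left, D_basis]
    change gof (rp (h : G ⧸ N)) * (gof ((rp (h : G ⧸ N))⁻¹ * h) * _) = _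
    rw [← mul_assoc, ← gof_mul, mul_inv_cancel_left]
    split_ifs with h3
    · rw [mul_one]
    · rw [mul_zero]
  | h2 x y hx hy =>
    rw [add_mul, map_add, hx, hy]
    split_ifs
    · rfl
    · rw [add_zero]
  | h3 x hx =>
    rw [neg_mul, map_neg, hx]
    split_ifs
    · rfl
    · rw [neg_zero]

/-- the sum of the multiples of `gof x_i - 1` -/
def E : (κ →₀ RR G) →ₗ[RR G] RR G :=
  Finsupp.linearCombination (RR G) (fun i => (gof ((b i : N) : G) - 1 : RR G))

theorem E_single (i : κ) (r : RR G) :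
    E b (Finsupp.single i r) = r * (gof ((b i : N) : G) - 1) := by
  unfold E
  rw [Finsupp.linearCombination_single, smul_eq_mul]

theorem FD_E (k : κ) (s : κ →₀ RR G) : FD b k (E b s) = s k := by
  induction s using Finsupp.induction_linear with
  | zero => rw [map_zero, map_zero, Finsupp.zero_apply]
  | add f g hf hg => rw [map_add, map_add, hf, hg, Finsupp.add_apply]
  | single i r =>
    rw [E_single, FD_mul, Finsupp.single_apply]

theorem E_inj : Function.Injective (E b) := by
  intro s t h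
  ext1 k
  rw [← FD_E b k s, ← FD_E b k t, h]

theorem gof_mem (a : N) : ∃ s, E b s = gof (a : G) - 1 := by
  refine basis_ind b
    { carrier := {a | ∃ s, E b s = gof (a : G) - 1}
      one_mem' := ?_
      mul_mem' := ?_
      inv_mem' := ?_ } ?_ a
  · rintro a c ⟨s, hs⟩ ⟨t, ht⟩
    refine ⟨s + gof (a : G) • t, ?_⟩
    rw [map_add, map_smul, hs, ht, Subgroup.coe_mul, gof_mul, smul_eq_mul, mul_sub, mul_one]
    abel
  · exact ⟨0, by rw [map_zero, Subgroup.coe_one, gof_one, sub_self]⟩
  · rintro a ⟨s, hs⟩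
    refine ⟨-(gof (a : G)⁻¹ • s), ?_⟩
    rw [map_neg, map_smul, hs, Subgroup.coe_inv, smul_eq_mul, mul_sub, mul_one, ← gof_mul,
      inv_mul_cancel, gof_one, neg_sub]
  · intro i
    exact ⟨Finsupp.single i 1, by rw [E_single, one_mul]⟩

theorem ker_qq' {r : RR G} (h : qq N r = 0) : ∃ s, r = E b s := by
  have hkey : ∀ r : RR G, ∃ s, r - secH N (qq N r) = E b s := by
    intro r
    induction r using rr_ind with
    | h1 g =>
      rw [sec_qq_gof]
      obtain ⟨s, hs⟩ := gof_mem b ⟨(rp (g : G ⧸ N))⁻¹ * g, rp_mem g⟩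
      refine ⟨gof (rp (g : G ⧸ N)) • s, ?_⟩
      rw [map_smul, hs, smul_eq_mul, mul_sub, ← gof_mul, mul_inv_cancel_left, mul_one]
    | h2 x y hx hy =>
      obtain ⟨s, hs⟩ := hx
      obtain ⟨s', hs'⟩ := hy
      refine ⟨s + s', ?_⟩
      rw [map_add (E b), ← hs, ← hs', map_add, map_add]
      abel
    | h3 x hx =>
      obtain ⟨s, hs⟩ := hx
      refine ⟨-s, ?_⟩
      rw [map_neg (E b), ← hs, map_neg, map_neg]
      abel
  obtain ⟨s, hs⟩ := hkey r
  rw [h, map_zero, sub_zero] at hs
  exact ⟨s, hs⟩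

theorem qq_E (s : κ →₀ RR G) : qq N (E b s) = 0 := by
  have h0 : ∀ i, qq N (gof ((b i : N) : G) - 1) = 0 := by
    intro i
    apply Subtype.ext
    rw [qq_coe, sub_smul, one_smul]
    change _ = (0 : Fn N)
    rw [sub_eq_zero]
    refine fn_ext fun y => ?_
    rw [gof_ind0]
    have h4 : (((b i : N) : G) : G ⧸ N) = ((1 : G) : G ⧸ N) := by
      rw [eq_comm, QuotientGroup.eq, inv_one, one_mul]
      exact (b i).2
    rw [h4]
    rfl
  induction s using Finsupp.induction_linear with
  | zero => rw [map_zero, map_zero]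
  | add f g hf hg => rw [map_add, map_add, hf, hg, add_zero]
  | single i r => rw [E_single, ← smul_eq_mul, map_smul, h0, smul_zero]

theorem col_E {n : ℕ} (M : MR G n) (s : Fin n → (κ →₀ RR G)) :
    col M (fun i => E b (s i)) = fun i => E b (col M s i) := by
  funext i
  change ∑ j, M i j • E b (s j) = E b (∑ j, M i j • s j)
  rw [map_sum]
  exact Finset.sum_congr rfl fun j _ => (map_smul (E b) _ _).symm

theorem col_ev {n : ℕ} (M : MR G n) (s : Fin n → (κ →₀ RR G)) (k : κ) :
    col M (fun i => s i k) = fun i => col M s i k := by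
  funext i
  change ∑ j, M i j • s j k = (∑ j, M i j • s j) k
  rw [Finsupp.finsetSum_apply]
  exact Finset.sum_congr rfl fun j _ => by rw [Finsupp.smul_apply]

theorem t_FREE : S_FREE := by
  intro G _ n w e0 e1 e2 e3 d0 d1 d2 h hG N hN
  obtain ⟨κ, ⟨b⟩⟩ : ∃ κ : Type, Nonempty (FreeGroupBasis κ N) := hN.nonempty_basis
  refine lift_allDer h (qq N) (qq_surj N) hG fun ψ hψ0 hψ1 hψ2 => ?_
  choose s hs using fun i => ker_qq' b (hψ0 i)
  have hψs : ψ = fun i => E b (s i) := funext hs
  have h1 : col e2 s = s := by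
    funext i
    apply E_inj b
    have h2 := congrFun (col_E b e2 s) i
    rw [← h2, ← hψs, hψ1, hs]
  have h2 : col d2 s = 0 := by
    funext i
    apply E_inj b
    have h2 := congrFun (col_E b d2 s) i
    rw [← h2, ← hψs, hψ2]
    change (0 : RR G) = E b 0
    rw [map_zero]
  have h3 : ∀ k, ∃ θ : Fin n → RR G, col d1 θ = fun i => s i k := by
    intro k
    refine exact2_RR h _ ?_ ?_
    · rw [col_ev, h1]
    · rw [col_ev, h2]
      rfl
  choose θ hθ using h3
  let K : Finset κ := Finset.univ.biUnion fun i => (s i).support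
  have hK : ∀ k, k ∉ K → ∀ i, s i k = 0 := by
    intro k hk i
    by_contra hcon
    exact hk (Finset.mem_biUnion.2 ⟨i, Finset.mem_univ _, Finsupp.mem_support_iff.2 hcon⟩)
  let Θ : Fin n → (κ →₀ RR G) := fun i => ∑ k ∈ K, Finsupp.single k (θ k i)
  have hΘ : ∀ i k, Θ i k = if k ∈ K then θ k i else 0 := by
    intro i k
    change (∑ k ∈ K, Finsupp.single k (θ k i)) k = _
    rw [Finsupp.finsetSum_apply]
    simp_rw [Finsupp.single_apply]
    rw [Finset.sum_ite_eq' K k]
  have h4 : col d1 Θ = s := by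
    funext i
    ext1 k
    have h5 := congrFun (col_ev d1 Θ k) i
    rw [← h5]
    by_cases hk : k ∈ K
    · have h6 : (fun i => Θ i k) = θ k := funext fun i => by rw [hΘ, if_pos hk]
      rw [h6, hθ]
    · have h6 : (fun i => Θ i k) = 0 := funext fun i => by rw [hΘ, if_neg hk]; rfl
      rw [h6, col_zero', hK k hk]
      rfl
  refine ⟨fun i => E b (Θ i), fun i => qq_E b _, ?_⟩
  rw [col_E, h4, ← hψs]

end

end Pool.Agent.J4H73.PH
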