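import Pool.Agent.J4H59.PH.Jobs
import Mathlib.GroupTheory.FreeGroup.CyclicallyReduced

/-!
# Free nonabelian groups and the kernel of a homomorphism to the signs (job GRP of helper59)
-/

set_option autoImplicit false
set_option linter.unusedSectionVars false

open scoped Classical Matrix

namespace Pool.Agent.J4H73.PH

open Pool.Agent.Helper386.PD3 Pool.Agent.J4H59.PD Pool.Agent.J4H59.PE Pool.Agent.J4H59.PH

noncomputable section

/-- square roots in free groups are unique -/
theorem sq_inj {F : Type} [Group F] (hF : IsFreeGroup F) {x y : F} (h : x * x = y * y) : x = y := by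
  obtain ⟨κ, ⟨b⟩⟩ : ∃ κ : Type, Nonempty (FreeGroupBasis κ F) := hF.nonempty_basis
  apply b.repr.injective
  apply pow_left_injective (M := FreeGroup κ) two_ne_zero
  change b.repr x ^ 2 = b.repr y ^ 2
  rw [pow_two, pow_two, ← map_mul, ← map_mul, h]

theorem comm_of_sq {F : Type} [Group F] (hF : IsFreeGroup F) {x y : F}
    (h : (x * x) * (y * y) = (y * y) * (x * x)) : x * y = y * x := by
  have h1 : x * (y * y) = (y * y) * x := by
    have h2 : (y * y) * x * (y * y)⁻¹ = x := by
      apply sq_inj hF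
      have h3 : (y * y) * x * (y * y)⁻¹ * ((y * y) * x * (y * y)⁻¹) =
          (y * y) * (x * x) * (y * y)⁻¹ := by group
      rw [h3, ← h]
      group
    rw [mul_inv_eq_iff_eq_mul] at h2
    exact h2.symm
  have h2 : x * y * x⁻¹ = y := by
    apply sq_inj hF
    have h3 : x * y * x⁻¹ * (x * y * x⁻¹) = x * (y * y) * x⁻¹ := by group
    rw [h3, h1]
    group
  rw [mul_inv_eq_iff_eq_mul] at h2
  exact h2

theorem t_GRP : S_GRP := by
  intro G _ N hN hfg hna w
  have hle : N ⊓ w.ker ≤ N := inf_le_left
  have hK : (N ⊓ w.ker).subgroupOf N = (w.comp N.subtype).ker := by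
    ext x
    rw [Subgroup.mem_subgroupOf, Subgroup.mem_inf, MonoidHom.mem_ker, MonoidHom.mem_ker]
    exact ⟨fun h => h.2, fun h => ⟨x.2, h⟩⟩
  have h1 : (N ⊓ w.ker).FG := by
    have hNfg : Group.FG N := (Group.fg_iff_subgroup_fg N).2 hfg
    have hidx : ((N ⊓ w.ker).subgroupOf N).FiniteIndex := by
      rw [hK]
      infer_instance
    have h2 : Group.FG ((N ⊓ w.ker).subgroupOf N) := inferInstance
    have h3 := Group.fg_of_surjective (f := (Subgroup.subgroupOfEquivOfLe hle).toMonoidHom)
      (Subgroup.subgroupOfEquivOfLe hle).surjective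
    exact (Group.fg_iff_subgroup_fg _).1 h3
  have h2 : IsFreeGroup ↥(N ⊓ w.ker) := by
    have := hN
    have : IsFreeGroup ((N ⊓ w.ker).subgroupOf N) := inferInstance
    exact IsFreeGroup.ofMulEquiv (Subgroup.subgroupOfEquivOfLe hle)
  refine ⟨h1, h2, ?_⟩
  obtain ⟨κ, ⟨b⟩⟩ : ∃ κ : Type, Nonempty (FreeGroupBasis κ ↥(N ⊓ w.ker)) := h2.nonempty_basis
  by_cases hs : Subsingleton κ
  · exfalso
    obtain ⟨x, hx, y, hy, hxy⟩ := hna
    have hcomm : ∀ u v : ↥(N ⊓ w.ker), u * v = v * u := by
      intro u v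
      apply b.repr.injective
      rw [map_mul, map_mul]
      generalize b.repr u = u'
      generalize b.repr v = v'
      rcases isEmpty_or_nonempty κ with he | hne
      · exact Subsingleton.elim _ _
      · have : Unique κ := uniqueOfSubsingleton hne.some
        let e : FreeGroup κ ≃* Multiplicative ℤ := FreeGroup.mulEquivIntOfUnique
        apply e.injective
        rw [map_mul, map_mul, mul_comm]
    have hmem : ∀ u ∈ N, u * u ∈ N ⊓ w.ker := by
      intro u hu
      refine ⟨N.mul_mem hu hu, ?_⟩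
      change w (u * u) = 1
      rw [map_mul]
      exact Int.units_mul_self _
    have h3 := congrArg (fun z : ↥(N ⊓ w.ker) => (z : G))
      (hcomm ⟨x * x, hmem x hx⟩ ⟨y * y, hmem y hy⟩)
    have h4 : (x * x) * (y * y) = (y * y) * (x * x) := h3
    have h5 := comm_of_sq hN (x := ⟨x, hx⟩) (y := ⟨y, hy⟩) (Subtype.ext h4)
    exact hxy (congrArg (fun z : N => (z : G)) h5)
  · rw [not_subsingleton_iff_nontrivial] at hs
    obtain ⟨i, j, hij⟩ := hs.exists_pair_ne
    refine ⟨b i, b j, b.lift (fun k => if k = i then Multiplicative.ofAdd 1 else 1),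
      b.lift (fun k => if k = j then Multiplicative.ofAdd 1 else 1), ?_, ?_, ?_, ?_⟩
    · rw [FreeGroupBasis.lift_apply_apply, FreeGroupBasis.repr_apply_coe, FreeGroup.lift_apply_of,
        if_pos rfl]
    · rw [FreeGroupBasis.lift_apply_apply, FreeGroupBasis.repr_apply_coe, FreeGroup.lift_apply_of,
        if_neg hij.symm]
    · rw [FreeGroupBasis.lift_apply_apply, FreeGroupBasis.repr_apply_coe, FreeGroup.lift_apply_of,
        if_neg hij]
    · rw [FreeGroupBasis.lift_apply_apply, FreeGroupBasis.repr_apply_coe, FreeGroup.lift_apply_of,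
        if_pos rfl]

end

end Pool.Agent.J4H73.PH
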